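import Mathlib

/-!
# Global index grammars

All symbols are natural numbers; the alphabets `N`, `T`, `I` of a grammar are the (finite) sets of
nonterminals, terminals and stack indices which occur in it.  Disjointness is automatic since the
three kinds of symbols are tagged.
-/

set_option autoImplicit false

namespace Pool.Agent.Q328.GIG

/-- A symbol of a sentential form: `Sum.inl A` is the nonterminal `A`, `Sum.inr a` the terminal
`a`. -/
abbrev Sym : Type := ℕ ⊕ ℕ

/-- The four kinds of productions: `inl (inl ())` is (i.1), `inl (inr y)` is (i.2) with the top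
stack symbol `y` (`none` is the bottom symbol), `inr (inl (x, a))` is (ii) with the pushed symbol
`x` and the leading terminal `a`, `inr (inr x)` is (iii) with the popped symbol `x`. -/
abbrev Kind : Type := (Unit ⊕ Option ℕ) ⊕ ((ℕ × ℕ) ⊕ ℕ)

/-- A production: left side, kind, and the word `α` of its right side (the whole right side is
`a α` for a pushing production and `α` otherwise). -/
abbrev Rule : Type := ℕ × Kind × List Sym

/-- `(i.1)`: `A → α`. -/
def free (A : ℕ) (α : List Sym) : Rule := (A, .inl (.inl ()), α)

/-- `(i.2)`: `A →_[y] α`, where `y = none` is the bottom symbol. -/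
def test (A : ℕ) (y : Option ℕ) (α : List Sym) : Rule := (A, .inl (.inr y), α)

/-- `(ii)`: `A →_x a α`. -/
def push (A x a : ℕ) (α : List Sym) : Rule := (A, .inr (.inl (x, a)), α)

/-- `(iii)`: `A →_x̄ α`. -/
def pop (A x : ℕ) (α : List Sym) : Rule := (A, .inr (.inr x), α)

/-- A global index grammar: start symbol and list of productions. -/
abbrev Gram : Type := ℕ × List Rule

/-- A configuration: stack above the bottom symbol (top on the left) and sentential form. -/
abbrev Conf : Type := List ℕ × List Sym

/-- Leftmost derivation steps. -/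
inductive Step (P : List Rule) : Conf → Conf → Prop
  | free (δ u : List ℕ) (A : ℕ) (α γ : List Sym) (h : free A α ∈ P) :
      Step P (δ, u.map Sum.inr ++ Sum.inl A :: γ) (δ, u.map Sum.inr ++ (α ++ γ))
  | test (δ u : List ℕ) (A : ℕ) (α γ : List Sym) (h : test A δ.head? α ∈ P) :
      Step P (δ, u.map Sum.inr ++ Sum.inl A :: γ) (δ, u.map Sum.inr ++ (α ++ γ))
  | push (δ u : List ℕ) (A x a : ℕ) (α γ : List Sym) (h : push A x a α ∈ P) :
      Step P (δ, u.map Sum.inr ++ Sum.inl A :: γ) (x :: δ, u.map Sum.inr ++ (Sum.inr a :: α ++ γ))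
  | pop (δ u : List ℕ) (A x : ℕ) (α γ : List Sym) (h : pop A x α ∈ P) :
      Step P (x :: δ, u.map Sum.inr ++ Sum.inl A :: γ) (δ, u.map Sum.inr ++ (α ++ γ))

/-- The language generated by a grammar. -/
def lang (G : Gram) : Set (List ℕ) :=
  {w | Relation.ReflTransGen (Step G.2) ([], [Sum.inl G.1]) ([], w.map Sum.inr)}

end Pool.Agent.Q328.GIG
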