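import Mathlib
import Pool.Agent.Q328.GIG.Defs
import Pool.Agent.H109R3.CF.Src

set_option autoImplicit false

namespace Pool.Agent.Q328.GIG

open Relation Pool.Agent.H109R3.CF

/-- Names of nonterminals. -/
abbrev NT : Type := Bool ⊕ (Option ℕ ⊕ (Bool × Tr × ℕ))

/-- The number of a nonterminal. -/
def nt (z : NT) : ℕ := Encodable.encode z

theorem nt_inj {a b : NT} : nt a = nt b ↔ a = b := Encodable.encode_inj

/-- Start symbol. -/
def S0 : ℕ := nt (.inl false)
/-- The nonterminal which pushes. -/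
def D0 : ℕ := nt (.inl true)
/-- State symbols. -/
def St (o : Option ℕ) : ℕ := nt (.inr (.inl o))
/-- First phase. -/
def Aa (τ : Tr) (i : ℕ) : ℕ := nt (.inr (.inr (true, τ, i)))
/-- Second phase. -/
def Bb (τ : Tr) (i : ℕ) : ℕ := nt (.inr (.inr (false, τ, i)))

/-- `m` copies of the pushing nonterminal. -/
def ds (m : ℕ) : List Sym := List.replicate m (.inl D0)

theorem ds_succ (m : ℕ) : ds (m + 1) = .inl D0 :: ds m := rfl

theorem ds_add (m n : ℕ) : ds m ++ ds n = ds (m + n) := by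
  simp [ds]

/-- The productions of a transition. -/
def prods (τ : Tr) : List Rule :=
  [free (St (some τ.1)) [.inl (Aa τ 0), .inl (St τ.2.2.2.2.2)],
   free (Aa τ τ.2.1) (.inl (Aa τ 0) :: ds τ.2.2.2.1),
   free (Aa τ 0) [.inl (Bb τ 0)],
   test (Bb τ τ.2.2.1) none (ds τ.2.2.2.2.1)] ++
  (List.range τ.2.1).map (fun i => pop (Aa τ i) 0 [.inl (Aa τ (i + 1))]) ++
  (List.range τ.2.2.1).map (fun i => pop (Bb τ i) 0 [.inl (Bb τ (i + 1))])

/-- The productions other than the first one. -/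
def rest (T : List Tr) : List Rule :=
  [push D0 0 0 [], pop (St none) 0 [.inl (St none)], free (St none) []] ++ T.flatMap prods

/-- The grammar. -/
def gram (T : List Tr) (p0 n : ℕ) : Gram :=
  (S0, free S0 (ds n ++ [.inl (St (some p0))]) :: rest T)

theorem split_inj {u v : List ℕ} {A B : ℕ} {γ δ : List Sym}
    (h : u.map (Sum.inr : ℕ → Sym) ++ Sum.inl A :: γ = v.map Sum.inr ++ Sum.inl B :: δ) :
    u = v ∧ A = B ∧ γ = δ := by
  induction u generalizing v with
  | nil =>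
    cases v with
    | nil => simpa using h
    | cons b v => simp at h
  | cons a u ih =>
    cases v with
    | nil => simp at h
    | cons b v =>
      simp only [List.map_cons, List.cons_append, List.cons.injEq, Sum.inr.injEq] at h
      obtain ⟨h1, h2⟩ := h
      obtain ⟨h3, h4, h5⟩ := ih h2
      exact ⟨by rw [h1, h3], h4, h5⟩

theorem step_inv {P : List Rule} {δ u : List ℕ} {X : ℕ} {γ : List Sym} {c' : Conf}
    (h : Step P (δ, u.map Sum.inr ++ Sum.inl X :: γ) c') :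
    (∃ α, free X α ∈ P ∧ c' = (δ, u.map Sum.inr ++ (α ++ γ))) ∨
    (∃ α, test X δ.head? α ∈ P ∧ c' = (δ, u.map Sum.inr ++ (α ++ γ))) ∨
    (∃ x a α, push X x a α ∈ P ∧ c' = (x :: δ, (u ++ [a]).map Sum.inr ++ (α ++ γ))) ∨
    (∃ x α δ', δ = x :: δ' ∧ pop X x α ∈ P ∧ c' = (δ', u.map Sum.inr ++ (α ++ γ))) := by
  generalize hc : ((δ, u.map Sum.inr ++ Sum.inl X :: γ) : Conf) = c at h
  cases h with
  | free δ1 u1 A1 α1 γ1 hm =>
    obtain ⟨h1, h2⟩ := Prod.mk.inj hc
    obtain ⟨rfl, rfl, rfl⟩ := split_inj h2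
    subst h1
    exact Or.inl ⟨α1, hm, rfl⟩
  | test δ1 u1 A1 α1 γ1 hm =>
    obtain ⟨h1, h2⟩ := Prod.mk.inj hc
    obtain ⟨rfl, rfl, rfl⟩ := split_inj h2
    subst h1
    exact Or.inr (Or.inl ⟨α1, hm, rfl⟩)
  | push δ1 u1 A1 x1 a1 α1 γ1 hm =>
    obtain ⟨h1, h2⟩ := Prod.mk.inj hc
    obtain ⟨rfl, rfl, rfl⟩ := split_inj h2
    subst h1
    refine Or.inr (Or.inr (Or.inl ⟨x1, a1, α1, hm, ?_⟩))
    simp
  | pop δ1 u1 A1 x1 α1 γ1 hm =>
    obtain ⟨h1, h2⟩ := Prod.mk.inj hc
    obtain ⟨rfl, rfl, rfl⟩ := split_inj h2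
    subst h1
    exact Or.inr (Or.inr (Or.inr ⟨x1, α1, δ1, rfl, hm, rfl⟩))

theorem mem_rules (T : List Tr) (p0 n : ℕ) (ρ : Rule) : ρ ∈ (gram T p0 n).2 ↔
    ρ = free S0 (ds n ++ [.inl (St (some p0))]) ∨ ρ = push D0 0 0 [] ∨
    ρ = pop (St none) 0 [.inl (St none)] ∨ ρ = free (St none) [] ∨
    ∃ τ ∈ T, (ρ = free (St (some τ.1)) [.inl (Aa τ 0), .inl (St τ.2.2.2.2.2)] ∨
      ρ = free (Aa τ τ.2.1) (.inl (Aa τ 0) :: ds τ.2.2.2.1) ∨
      ρ = free (Aa τ 0) [.inl (Bb τ 0)] ∨
      ρ = test (Bb τ τ.2.2.1) none (ds τ.2.2.2.2.1) ∨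
      (∃ i < τ.2.1, ρ = pop (Aa τ i) 0 [.inl (Aa τ (i + 1))]) ∨
      ∃ i < τ.2.2.1, ρ = pop (Bb τ i) 0 [.inl (Bb τ (i + 1))]) := by
  unfold gram rest prods
  simp only [List.mem_cons, List.mem_append, List.mem_flatMap, List.mem_map, List.mem_range,
    List.not_mem_nil, or_false, or_assoc, eq_comm (a := ρ)]

section sound

variable (T : List Tr) (p0 n : ℕ)

/-- The invariant. -/
structure Inv (c : Conf) : Prop where
  dp : ∀ (u : List ℕ) (x m : ℕ) (o : Option ℕ),
    c = (List.replicate x 0, u.map Sum.inr ++ (ds m ++ [.inl (St o)])) → HaltsT T o (x + m)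
  a : ∀ (u : List ℕ) (x m i : ℕ) (τ : Tr), τ ∈ T →
    c = (List.replicate x 0, u.map Sum.inr ++ .inl (Aa τ i) :: (ds m ++ [.inl (St τ.2.2.2.2.2)])) →
    ∃ t, x + i = τ.2.1 * t + τ.2.2.1 ∧
      HaltsT T τ.2.2.2.2.2 (τ.2.2.2.1 * t + τ.2.2.2.2.1 + m)
  b : ∀ (u : List ℕ) (x m i : ℕ) (τ : Tr), τ ∈ T →
    c = (List.replicate x 0, u.map Sum.inr ++ .inl (Bb τ i) :: (ds m ++ [.inl (St τ.2.2.2.2.2)])) →
    x + i = τ.2.2.1 ∧ HaltsT T τ.2.2.2.2.2 (τ.2.2.2.2.1 + m)


variable {T p0 n}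

theorem inv_end (w : List ℕ) : Inv T ([], w.map Sum.inr) := by
  have key : ∀ (u : List ℕ) (l : List Sym) (X : ℕ), Sum.inl X ∈ l →
      w.map (Sum.inr : ℕ → Sym) ≠ u.map Sum.inr ++ l := by
    intro u l X hX h
    have h1 : (Sum.inl X : Sym) ∈ w.map (Sum.inr : ℕ → Sym) := by
      rw [h]
      exact List.mem_append_right _ hX
    simp at h1
  refine ⟨?_, ?_, ?_⟩
  · intro u x m o hc
    exact absurd (Prod.mk.inj hc).2 (key _ _ (St o) (by simp))
  · intro u x m i τ _ hc
    exact absurd (Prod.mk.inj hc).2 (key _ _ (Aa τ i) (by simp))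
  · intro u x m i τ _ hc
    exact absurd (Prod.mk.inj hc).2 (key _ _ (Bb τ i) (by simp))

theorem inv_step {c c' : Conf} (h : Step (gram T p0 n).2 c c') (hi : Inv T c') : Inv T c := by
  refine ⟨?_, ?_, ?_⟩
  · intro u x m o hc
    subst hc
    rcases m with _ | m
    · have h' : Step (gram T p0 n).2
          (List.replicate x 0, u.map Sum.inr ++ .inl (St o) :: []) c' := h
      rcases step_inv h' with ⟨α, hm, rfl⟩ | ⟨α, hm, rfl⟩ | ⟨y, a, α, hm, rfl⟩ |
        ⟨y, α, δ', hd, hm, rfl⟩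
      · rw [mem_rules] at hm
        simp [-Prod.exists, free, test, push, pop, S0, D0, St, Aa, Bb, nt_inj] at hm
        rcases hm with ⟨rfl, -⟩ | ⟨τ, hτ, rfl, rfl⟩
        · exact HaltsT.stop _
        · obtain ⟨t, h1, h2⟩ := hi.a u x 0 0 τ hτ rfl
          have h3 := HaltsT.step (T := T) τ.1 τ.2.1 τ.2.2.1 τ.2.2.2.1 τ.2.2.2.2.1 τ.2.2.2.2.2
            hτ t h2
          rw [h1]
          exact h3
      · rw [mem_rules] at hm
        simp [-Prod.exists, free, test, push, pop, S0, D0, St, Aa, Bb, nt_inj] at hm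
      · rw [mem_rules] at hm
        simp [-Prod.exists, free, test, push, pop, S0, D0, St, Aa, Bb, nt_inj] at hm
      · rw [mem_rules] at hm
        simp [-Prod.exists, free, test, push, pop, S0, D0, St, Aa, Bb, nt_inj] at hm
        obtain ⟨rfl, -⟩ := hm
        exact HaltsT.stop _
    · have h' : Step (gram T p0 n).2
          (List.replicate x 0, u.map Sum.inr ++ .inl D0 :: (ds m ++ [.inl (St o)])) c' := h
      rcases step_inv h' with ⟨α, hm, rfl⟩ | ⟨α, hm, rfl⟩ | ⟨y, a, α, hm, rfl⟩ |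
        ⟨y, α, δ', hd, hm, rfl⟩
      · rw [mem_rules] at hm
        simp [-Prod.exists, free, test, push, pop, S0, D0, St, Aa, Bb, nt_inj] at hm
      · rw [mem_rules] at hm
        simp [-Prod.exists, free, test, push, pop, S0, D0, St, Aa, Bb, nt_inj] at hm
      · rw [mem_rules] at hm
        simp [-Prod.exists, free, test, push, pop, S0, D0, St, Aa, Bb, nt_inj] at hm
        obtain ⟨⟨rfl, rfl⟩, rfl⟩ := hm
        have h1 := hi.dp (u ++ [0]) (x + 1) m o rfl
        have h2 : x + (m + 1) = x + 1 + m := by ring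
        rw [h2]
        exact h1
      · rw [mem_rules] at hm
        simp [-Prod.exists, free, test, push, pop, S0, D0, St, Aa, Bb, nt_inj] at hm
  · intro u x m i τ hT hc
    subst hc
    rcases step_inv h with ⟨α, hm, rfl⟩ | ⟨α, hm, rfl⟩ | ⟨y, a, α, hm, rfl⟩ |
        ⟨y, α, δ', hd, hm, rfl⟩
    · rw [mem_rules] at hm
      simp [-Prod.exists, free, test, push, pop, S0, D0, St, Aa, Bb, nt_inj] at hm
      obtain ⟨τ', hτ, (⟨⟨rfl, rfl⟩, rfl⟩ | ⟨⟨rfl, rfl⟩, rfl⟩)⟩ := hm
      · obtain ⟨t, h1, h2⟩ := hi.a u x (τ.2.2.2.1 + m) 0 τ hT (by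
          rw [← ds_add]
          simp [Aa, St])
        refine ⟨t + 1, ?_, ?_⟩
        · rw [mul_add]; omega
        · have h3 : τ.2.2.2.1 * (t + 1) + τ.2.2.2.2.1 + m =
            τ.2.2.2.1 * t + τ.2.2.2.2.1 + (τ.2.2.2.1 + m) := by ring
          rw [h3]
          exact h2
      · obtain ⟨h1, h2⟩ := hi.b u x m 0 τ hT rfl
        refine ⟨0, by omega, ?_⟩
        rw [mul_zero, zero_add]
        exact h2
    · rw [mem_rules] at hm
      simp [-Prod.exists, free, test, push, pop, S0, D0, St, Aa, Bb, nt_inj] at hm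
    · rw [mem_rules] at hm
      simp [-Prod.exists, free, test, push, pop, S0, D0, St, Aa, Bb, nt_inj] at hm
    · rw [mem_rules] at hm
      simp [-Prod.exists, free, test, push, pop, S0, D0, St, Aa, Bb, nt_inj] at hm
      obtain ⟨τ', hτ, i', hi', ⟨rfl, rfl⟩, rfl, rfl⟩ := hm
      rcases x with _ | x
      · simp at hd
      · rw [List.replicate_succ, List.cons.injEq] at hd
        obtain ⟨-, rfl⟩ := hd
        obtain ⟨t, h1, h2⟩ := hi.a u x m (i + 1) τ hT rfl
        exact ⟨t, by omega, h2⟩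
  · intro u x m i τ hT hc
    subst hc
    rcases step_inv h with ⟨α, hm, rfl⟩ | ⟨α, hm, rfl⟩ | ⟨y, a, α, hm, rfl⟩ |
        ⟨y, α, δ', hd, hm, rfl⟩
    · rw [mem_rules] at hm
      simp [-Prod.exists, free, test, push, pop, S0, D0, St, Aa, Bb, nt_inj] at hm
    · rw [mem_rules] at hm
      simp [-Prod.exists, free, test, push, pop, S0, D0, St, Aa, Bb, nt_inj] at hm
      obtain ⟨τ', hτ, ⟨rfl, rfl⟩, rfl, rfl⟩ := hm
      have h1 := hi.dp u 0 (τ.2.2.2.2.1 + m) τ.2.2.2.2.2 (by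
        rw [← ds_add, List.append_assoc])
      rw [zero_add] at h1
      exact ⟨by omega, h1⟩
    · rw [mem_rules] at hm
      simp [-Prod.exists, free, test, push, pop, S0, D0, St, Aa, Bb, nt_inj] at hm
    · rw [mem_rules] at hm
      simp [-Prod.exists, free, test, push, pop, S0, D0, St, Aa, Bb, nt_inj] at hm
      obtain ⟨τ', hτ, i', hi', ⟨rfl, rfl⟩, rfl, rfl⟩ := hm
      rcases x with _ | x
      · simp at hd
      · rw [List.replicate_succ, List.cons.injEq] at hd
        obtain ⟨-, rfl⟩ := hd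
        obtain ⟨h1, h2⟩ := hi.b u x m (i + 1) τ hT rfl
        exact ⟨by omega, h2⟩

theorem inv_all {c : Conf} {w : List ℕ}
    (h : ReflTransGen (Step (gram T p0 n).2) c ([], w.map Sum.inr)) : Inv T c := by
  induction h using ReflTransGen.head_induction_on with
  | refl => exact inv_end w
  | head h1 _ ih => exact inv_step h1 ih

theorem sound {w : List ℕ} (h : w ∈ lang (gram T p0 n)) : HaltsT T (some p0) n := by
  rcases ReflTransGen.cases_head h with h1 | ⟨c, h1, h2⟩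
  · exfalso
    have h3 : (Sum.inl S0 : Sym) ∈ w.map (Sum.inr : ℕ → Sym) := by
      rw [← (Prod.mk.inj h1).2]
      exact List.mem_singleton_self _
    simp at h3
  · have h1' : Step (gram T p0 n).2 ([], ([] : List ℕ).map Sum.inr ++ .inl S0 :: []) c := h1
    rcases step_inv h1' with ⟨α, hm, rfl⟩ | ⟨α, hm, rfl⟩ | ⟨y, a, α, hm, rfl⟩ |
        ⟨y, α, δ', hd, hm, rfl⟩
    · rw [mem_rules] at hm
      simp [-Prod.exists, free, test, push, pop, S0, D0, St, Aa, Bb, nt_inj] at hm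
      subst hm
      have h3 := (inv_all h2).dp [] 0 n (some p0) (by simp [St])
      rw [zero_add] at h3
      exact h3
    · rw [mem_rules] at hm
      simp [-Prod.exists, free, test, push, pop, S0, D0, St, Aa, Bb, nt_inj] at hm
    · rw [mem_rules] at hm
      simp [-Prod.exists, free, test, push, pop, S0, D0, St, Aa, Bb, nt_inj] at hm
    · cases hd

end sound

section complete

variable (T : List Tr) (p0 n : ℕ)

theorem popA (τ : Tr) (hτ : τ ∈ T) (u : List ℕ) (γ : List Sym) (x : ℕ) :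
    ∀ k i : ℕ, i + k = τ.2.1 →
    ReflTransGen (Step (gram T p0 n).2)
      (List.replicate (x + k) 0, u.map Sum.inr ++ .inl (Aa τ i) :: γ)
      (List.replicate x 0, u.map Sum.inr ++ .inl (Aa τ τ.2.1) :: γ) := by
  intro k
  induction k with
  | zero =>
    intro i hi
    obtain rfl : i = τ.2.1 := by omega
    exact ReflTransGen.refl
  | succ k ih =>
    intro i hi
    refine ReflTransGen.head ?_ (ih (i + 1) (by omega))
    refine Step.pop (List.replicate (x + k) 0) u (Aa τ i) 0 [.inl (Aa τ (i + 1))] γ ?_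
    rw [mem_rules]
    exact Or.inr (Or.inr (Or.inr (Or.inr ⟨τ, hτ, Or.inr (Or.inr (Or.inr (Or.inr (Or.inl
      ⟨i, by omega, rfl⟩))))⟩)))

theorem popB (τ : Tr) (hτ : τ ∈ T) (u : List ℕ) (γ : List Sym) (x : ℕ) :
    ∀ k i : ℕ, i + k = τ.2.2.1 →
    ReflTransGen (Step (gram T p0 n).2)
      (List.replicate (x + k) 0, u.map Sum.inr ++ .inl (Bb τ i) :: γ)
      (List.replicate x 0, u.map Sum.inr ++ .inl (Bb τ τ.2.2.1) :: γ) := by
  intro k
  induction k with
  | zero =>
    intro i hi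
    obtain rfl : i = τ.2.2.1 := by omega
    exact ReflTransGen.refl
  | succ k ih =>
    intro i hi
    refine ReflTransGen.head ?_ (ih (i + 1) (by omega))
    refine Step.pop (List.replicate (x + k) 0) u (Bb τ i) 0 [.inl (Bb τ (i + 1))] γ ?_
    rw [mem_rules]
    exact Or.inr (Or.inr (Or.inr (Or.inr ⟨τ, hτ, Or.inr (Or.inr (Or.inr (Or.inr (Or.inr
      ⟨i, by omega, rfl⟩))))⟩)))

theorem cyc (τ : Tr) (hτ : τ ∈ T) (u : List ℕ) (x : ℕ) :
    ∀ t m : ℕ, ReflTransGen (Step (gram T p0 n).2)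
      (List.replicate (τ.2.1 * t + x) 0, u.map Sum.inr ++ .inl (Aa τ 0) ::
        (ds m ++ [.inl (St τ.2.2.2.2.2)]))
      (List.replicate x 0, u.map Sum.inr ++ .inl (Aa τ 0) ::
        (ds (τ.2.2.2.1 * t + m) ++ [.inl (St τ.2.2.2.2.2)])) := by
  intro t
  induction t with
  | zero =>
    intro m
    simp only [mul_zero, zero_add]
    exact ReflTransGen.refl
  | succ t ih =>
    intro m
    have h1 := popA T p0 n τ hτ u (ds m ++ [.inl (St τ.2.2.2.2.2)]) (τ.2.1 * t + x) τ.2.1 0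
      (by omega)
    have e1 : τ.2.1 * t + x + τ.2.1 = τ.2.1 * (t + 1) + x := by ring
    rw [e1] at h1
    refine h1.trans ?_
    have h2 : Step (gram T p0 n).2
        (List.replicate (τ.2.1 * t + x) 0, u.map Sum.inr ++ .inl (Aa τ τ.2.1) ::
          (ds m ++ [.inl (St τ.2.2.2.2.2)]))
        (List.replicate (τ.2.1 * t + x) 0, u.map Sum.inr ++ ((.inl (Aa τ 0) :: ds τ.2.2.2.1) ++
          (ds m ++ [.inl (St τ.2.2.2.2.2)]))) := by
      refine Step.free _ u _ _ _ ?_
      rw [mem_rules]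
      exact Or.inr (Or.inr (Or.inr (Or.inr ⟨τ, hτ, Or.inr (Or.inl rfl)⟩)))
    refine ReflTransGen.head h2 ?_
    have h3 := ih (τ.2.2.2.1 + m)
    have e2 : τ.2.2.2.1 * t + (τ.2.2.2.1 + m) = τ.2.2.2.1 * (t + 1) + m := by ring
    rw [e2, ← ds_add, List.append_assoc] at h3
    exact h3

theorem dchain (γ : List Sym) : ∀ (m x : ℕ) (u : List ℕ), ∃ u' : List ℕ,
    ReflTransGen (Step (gram T p0 n).2)
      (List.replicate x 0, u.map Sum.inr ++ (ds m ++ γ))
      (List.replicate (x + m) 0, u'.map Sum.inr ++ γ) := by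
  intro m
  induction m with
  | zero =>
    intro x u
    exact ⟨u, ReflTransGen.refl⟩
  | succ m ih =>
    intro x u
    obtain ⟨u', hu'⟩ := ih (x + 1) (u ++ [0])
    refine ⟨u', ?_⟩
    have e1 : x + 1 + m = x + (m + 1) := by ring
    rw [e1] at hu'
    refine ReflTransGen.head ?_ hu'
    have h1 : Step (gram T p0 n).2 (List.replicate x 0, u.map Sum.inr ++ .inl D0 :: (ds m ++ γ))
        (0 :: List.replicate x 0, u.map Sum.inr ++ (Sum.inr 0 :: [] ++ (ds m ++ γ))) := by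
      refine Step.push _ u _ _ _ _ _ ?_
      rw [mem_rules]
      exact Or.inr (Or.inl rfl)
    have e2 : (u ++ [0]).map (Sum.inr : ℕ → Sym) ++ (ds m ++ γ) =
        u.map Sum.inr ++ (Sum.inr 0 :: [] ++ (ds m ++ γ)) := by simp
    rw [e2]
    exact h1

theorem complete {o : Option ℕ} {x : ℕ} (h : HaltsT T o x) : ∀ u : List ℕ, ∃ w : List ℕ,
    ReflTransGen (Step (gram T p0 n).2)
      (List.replicate x 0, u.map Sum.inr ++ [.inl (St o)]) ([], w.map Sum.inr) := by
  induction h with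
  | stop x =>
    intro u
    refine ⟨u, ?_⟩
    induction x with
    | zero =>
      refine ReflTransGen.single ?_
      have h1 : Step (gram T p0 n).2 ([], u.map Sum.inr ++ .inl (St none) :: [])
          ([], u.map Sum.inr ++ ([] ++ [])) := by
        refine Step.free _ u _ _ _ ?_
        rw [mem_rules]
        exact Or.inr (Or.inr (Or.inr (Or.inl rfl)))
      simpa using h1
    | succ x ih =>
      refine ReflTransGen.head ?_ ih
      refine Step.pop (List.replicate x 0) u (St none) 0 [.inl (St none)] [] ?_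
      rw [mem_rules]
      exact Or.inr (Or.inr (Or.inl rfl))
  | step p s s0 r r0 o hm t _ ih =>
    intro u
    set τ : Tr := (p, s, s0, r, r0, o) with hτ
    have h1 : Step (gram T p0 n).2 (List.replicate (s * t + s0) 0, u.map Sum.inr ++
        .inl (St (some p)) :: []) (List.replicate (s * t + s0) 0, u.map Sum.inr ++
        ([.inl (Aa τ 0), .inl (St o)] ++ [])) := by
      refine Step.free _ u _ _ _ ?_
      rw [mem_rules]
      exact Or.inr (Or.inr (Or.inr (Or.inr ⟨τ, hm, Or.inl rfl⟩)))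
    have h2 := cyc T p0 n τ hm u s0 t 0
    have h3 : Step (gram T p0 n).2 (List.replicate s0 0, u.map Sum.inr ++
        .inl (Aa τ 0) :: (ds (r * t + 0) ++ [.inl (St o)]))
        (List.replicate s0 0, u.map Sum.inr ++
        ([.inl (Bb τ 0)] ++ (ds (r * t + 0) ++ [.inl (St o)]))) := by
      refine Step.free _ u _ _ _ ?_
      rw [mem_rules]
      exact Or.inr (Or.inr (Or.inr (Or.inr ⟨τ, hm, Or.inr (Or.inr (Or.inl rfl))⟩)))
    have h4 := popB T p0 n τ hm u (ds (r * t + 0) ++ [.inl (St o)]) 0 s0 0 (by simp [τ])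
    rw [zero_add] at h4
    have h5 : Step (gram T p0 n).2 ([], u.map Sum.inr ++
        .inl (Bb τ s0) :: (ds (r * t + 0) ++ [.inl (St o)]))
        ([], u.map Sum.inr ++ (ds r0 ++ (ds (r * t + 0) ++ [.inl (St o)]))) := by
      refine Step.test [] u _ _ _ ?_
      rw [mem_rules]
      exact Or.inr (Or.inr (Or.inr (Or.inr ⟨τ, hm, Or.inr (Or.inr (Or.inr (Or.inl rfl)))⟩)))
    obtain ⟨u', h6⟩ := dchain T p0 n [.inl (St o)] (r0 + r * t) 0 u
    obtain ⟨w, h7⟩ := ih u'
    refine ⟨w, ?_⟩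
    rw [← ds_add, zero_add, List.append_assoc, add_comm r0] at h6
    refine ReflTransGen.head h1 (h2.trans (ReflTransGen.head h3 (h4.trans
      (ReflTransGen.head h5 ?_))))
    rw [add_zero]
    exact h6.trans h7

theorem mem_lang_iff : (lang (gram T p0 n)).Nonempty ↔ HaltsT T (some p0) n := by
  constructor
  · rintro ⟨w, hw⟩
    exact sound hw
  · intro h
    obtain ⟨u', h6⟩ := dchain T p0 n [.inl (St (some p0))] n 0 []
    obtain ⟨w, h7⟩ := complete T p0 n (by rw [zero_add]; exact h : HaltsT T (some p0) (0 + n)) u'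
    refine ⟨w, ?_⟩
    have h1 : Step (gram T p0 n).2 ([], ([] : List ℕ).map Sum.inr ++ .inl S0 :: [])
        ([], ([] : List ℕ).map Sum.inr ++ ((ds n ++ [.inl (St (some p0))]) ++ [])) := by
      refine Step.free _ _ _ _ _ ?_
      rw [mem_rules]
      exact Or.inl rfl
    rw [List.append_nil] at h1
    exact ReflTransGen.head h1 (h6.trans h7)

end complete

/-- The reduction is computable. -/
theorem gram_computable (T : List Tr) (p0 : ℕ) : Primrec (fun n => gram T p0 n) := by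
  have h1 : Primrec (fun n : ℕ => ds n) := by
    refine (Primrec.nat_rec₁ (f := fun _ l => (.inl D0 : Sym) :: l) ([] : List Sym) ?_).of_eq ?_
    · exact Primrec.list_cons.comp (Primrec.const _) (Primrec.snd)
    · intro n
      induction n with
      | zero => rfl
      | succ n ih =>
        rw [ds_succ, ← ih]
  unfold gram free
  refine Primrec.pair (Primrec.const _) (Primrec.list_cons.comp ?_ (Primrec.const _))
  refine Primrec.pair (Primrec.const _) (Primrec.pair (Primrec.const _) ?_)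
  exact Primrec.list_append.comp h1 (Primrec.const _)

/-- A simple production: one of the forms `A → α`, `A →_[⊥] α`, `A →_x a α`, `A →_x̄ α` with the
fixed index `x = 0`, the fixed terminal `a = 0` and a word `α` of nonterminals. -/
def Simple (ρ : Rule) : Prop :=
  ∃ (A : ℕ) (α : List ℕ), ρ = free A (α.map Sum.inl) ∨ ρ = test A none (α.map Sum.inl) ∨
    ρ = push A 0 0 (α.map Sum.inl) ∨ ρ = pop A 0 (α.map Sum.inl)

theorem ds_eq (m : ℕ) : ds m = (List.replicate m D0).map Sum.inl := by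
  simp [ds]

theorem simple_rest (T : List Tr) : ∀ ρ ∈ rest T, Simple ρ := by
  intro ρ hρ
  have h1 : ρ ∈ (gram T 0 0).2 := List.mem_cons_of_mem _ hρ
  rw [mem_rules] at h1
  rcases h1 with rfl | rfl | rfl | rfl | ⟨τ, _, (rfl | rfl | rfl | rfl | ⟨i, _, rfl⟩ | ⟨i, _, rfl⟩)⟩
  · exact ⟨S0, [St (some 0)], Or.inl rfl⟩
  · exact ⟨D0, [], Or.inr (Or.inr (Or.inl rfl))⟩
  · exact ⟨St none, [St none], Or.inr (Or.inr (Or.inr rfl))⟩
  · exact ⟨St none, [], Or.inl rfl⟩
  · exact ⟨_, [Aa τ 0, St τ.2.2.2.2.2], Or.inl rfl⟩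
  · exact ⟨_, Aa τ 0 :: List.replicate τ.2.2.2.1 D0, Or.inl (by rw [ds_eq]; rfl)⟩
  · exact ⟨_, [Bb τ 0], Or.inl rfl⟩
  · exact ⟨_, List.replicate τ.2.2.2.2.1 D0, Or.inr (Or.inl (by rw [ds_eq]))⟩
  · exact ⟨_, [Aa τ (i + 1)], Or.inr (Or.inr (Or.inr rfl))⟩
  · exact ⟨_, [Bb τ (i + 1)], Or.inr (Or.inr (Or.inr rfl))⟩

theorem undecidable_fixed : ∃ (S D E : ℕ) (R : List Rule), (∀ ρ ∈ R, Simple ρ) ∧
    ¬ ComputablePred (fun n : ℕ =>
      lang (S, free S ((List.replicate n D ++ [E]).map Sum.inl) :: R) = ∅) := by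
  obtain ⟨T, p0, N, hN, h⟩ := exists_tr
  refine ⟨S0, D0, St (some p0), rest T, simple_rest T, ?_⟩
  intro hc
  apply h
  have h1 := hc.not
  have h2 := ComputablePred.computable_iff.1 h1
  obtain ⟨f, hf, hf2⟩ := h2
  refine ComputablePred.computable_iff.2 ⟨fun n => f (N n), hf.comp hN, ?_⟩
  funext n
  have h3 := congrFun hf2 (N n)
  have h4 : ((S0, free S0 ((List.replicate (N n) D0 ++ [St (some p0)]).map Sum.inl) ::
      rest T) : Gram) = gram T p0 (N n) := by
    simp [gram, ds]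
  rw [h4] at h3
  rw [← h3, ← mem_lang_iff T p0 (N n), Set.nonempty_iff_ne_empty]

theorem undecidable : ¬ ComputablePred (fun G : Gram => lang G = ∅) := by
  obtain ⟨T, p0, N, hN, h⟩ := exists_tr
  intro hc
  apply h
  have h1 : ComputablePred (fun G : Gram => ¬ lang G = ∅) := hc.not
  have h2 := ComputablePred.computable_iff.1 h1
  obtain ⟨f, hf, hf2⟩ := h2
  refine ComputablePred.computable_iff.2 ⟨fun n => f (gram T p0 (N n)), ?_, ?_⟩
  · exact hf.comp ((gram_computable T p0).to_comp.comp hN)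
  · funext n
    have h3 := congrFun hf2 (gram T p0 (N n))
    rw [← h3, ← mem_lang_iff T p0 (N n), Set.nonempty_iff_ne_empty]

end Pool.Agent.Q328.GIG
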